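import Pool.Agent.W844.GP.Defs2

/-!
Project GQ, part LOW: integrable lower bound
-/

set_option autoImplicit false

open Finset MeasureTheory ProbabilityTheory Filter Topology
open scoped ENNReal

namespace Pool.Agent.W462.GQ

open Pool.Agent.W844.VG (V stp nm)
open Pool.Agent.W844.GP

variable {d : ℕ}

/-! ### reflection -/

/-- the reflected environment -/
def rf (w : V d → ℝ) : V d → ℝ := fun x => w (-x)

lemma adj_neg {x y : V d} : adj (-x) (-y) ↔ adj x y := by
  unfold adj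
  have h : ∀ j, |(-y) j - (-x) j| = |y j - x j| := by
    intro j
    rw [Pi.neg_apply, Pi.neg_apply, ← abs_neg]
    congr 1
    ring
  simp only [h]

lemma isP_map_neg {l : List (V d)} : IsP (l.map (fun x => -x)) ↔ IsP l := by
  unfold IsP
  rw [List.isChain_map, List.nodup_map_iff neg_injective]
  simp only [adj_neg]

lemma wt_map_neg (w : V d → ℝ) (l : List (V d)) : wt w (l.map (fun x => -x)) = wt (rf w) l := by
  unfold wt
  rw [List.map_map]
  rfl

lemma lo_rf {w : V d → ℝ} {n : ℕ} {a : ℝ} (h : Lo (rf w) n a) : Lo w n a := by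
  obtain ⟨l, h1, h2, h3⟩ := h
  refine ⟨l.map (fun x => -x), by rw [List.length_map, h1], ?_, by rw [wt_map_neg]; exact h3⟩
  have h4 : (0 : V d) :: l.map (fun x => -x) = (0 :: l).map (fun x => -x) := by simp
  rw [h4, isP_map_neg]
  exact h2

lemma nm_neg (x : V d) : nm (-x) = nm x := by
  unfold nm
  simp only [Pi.neg_apply, Int.natAbs_neg]

lemma far_rf {K : ℝ} {w : V d → ℝ} {x : V d} {k : ℕ} (h : Far K (rf w) x k) :
    Far K w (-x) k := by
  obtain ⟨y, ⟨x', hx', hy⟩, hk⟩ := h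
  rw [Set.mem_singleton_iff] at hx'
  subst hx'
  refine ⟨-y, ⟨-x', rfl, ?_⟩, ?_⟩
  · refine hy.lift (fun x : V d => -x) ?_
    rintro a b ⟨h1, h2⟩
    refine ⟨?_, ?_⟩
    · exact h1
    · have h3 : -b - -a = -(b - a) := by abel
      rw [h3, nm_neg]
      exact h2
  · have h3 : -y - -x' = -(y - x') := by abel
    rw [h3, nm_neg]
    exact hk

/-! ### directions -/

/-- directions -/
abbrev Dir (d : ℕ) : Type := Fin d × Bool

/-- vertices on the axes -/
def vtx (e : Dir d) (m : ℕ) : V d := pt e.1 (if e.2 then (m : ℤ) else -(m : ℤ))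

lemma vtx_inj {f : Dir d → ℕ} (hf : ∀ e, 1 ≤ f e) : Function.Injective fun e => vtx e (f e) := by
  rintro ⟨i, s⟩ ⟨j, t⟩ h
  have h1 := hf (i, s)
  have h2 := hf (j, t)
  have hij : i = j := by
    by_contra hne
    have h3 := congrFun h i
    simp only [vtx, pt_same] at h3
    rw [pt_ne hne] at h3
    split_ifs at h3 <;> omega
  subst hij
  have h3 := congrFun h i
  simp only [vtx, pt_same] at h3
  congr 1
  cases s <;> cases t <;> simp at h3 ⊢ <;> omega

/-- the closed cluster of `vtx e m` is large -/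
def bad (K : ℝ) (e : Dir d) (m : ℕ) : Set (V d → ℝ) :=
  {w | vtx e m ∈ Cl K w ∧ Far K w (vtx e m) (m - 3)}

/-- some vertex at distance at least `R` is bad -/
def A (d : ℕ) (K : ℝ) (R : ℕ) : Set (V d → ℝ) := {w | ∃ e : Dir d, ∃ m, R ≤ m ∧ w ∈ bad K e m}

lemma esc (hE : S_ESC) (hd : 2 ≤ d) (w : V d → ℝ) (K : ℝ) (R : ℕ) (hK : 0 ≤ K) (e : Dir d)
    (h : ∀ m : ℕ, R < m → w ∉ bad K e m) (n : ℕ) :
    Lo w n (-(∑ m ∈ Icc 1 R, max (-(w (vtx e m))) 0) - K * n) := by
  obtain ⟨i, s⟩ := e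
  cases s
  · apply lo_rf
    have h1 := hE d i hd (rf w) K R hK (by
      intro m hm h1 h2
      refine h m hm ⟨?_, ?_⟩
      · change w (vtx (i, false) m) < -K
        have h3 : vtx (i, false) m = -pt i (m : ℤ) := by
          simp only [vtx, pt]
          rw [if_neg (by decide), Pi.single_neg]
        rw [h3]
        exact h1
      · have h3 : vtx (i, false) m = -pt i (m : ℤ) := by
          simp only [vtx, pt]
          rw [if_neg (by decide), Pi.single_neg]
        rw [h3]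
        exact far_rf h2) n
    have h4 : ∀ m : ℕ, (rf w) (pt i (m : ℤ)) = w (vtx (i, false) m) := by
      intro m
      simp only [vtx, pt, rf]
      rw [if_neg (by decide), Pi.single_neg]
    simp only [h4] at h1
    exact h1
  · have h1 := hE d i hd w K R hK (by
      intro m hm h1 h2
      exact h m hm ⟨h1, h2⟩) n
    exact h1

lemma bad_congr {K : ℝ} {e : Dir d} {m : ℕ} {w w' : V d → ℝ} (h : Cl K w = Cl K w') :
    w ∈ bad K e m ↔ w' ∈ bad K e m := by
  unfold bad Far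
  simp only [Set.mem_ofPred_eq]
  rw [h]

lemma A_congr {K : ℝ} {R : ℕ} {w w' : V d → ℝ} (h : Cl K w = Cl K w') :
    w ∈ A d K R ↔ w' ∈ A d K R := by
  unfold A
  simp only [Set.mem_ofPred_eq, bad_congr h]

lemma bad_meas (hM : S_MEAS) (K : ℝ) (e : Dir d) (m : ℕ) : MeasurableSet (bad K e m) := by
  have h1 := (hM d).2.2.1 K (vtx e m) (m - 3)
  have h2 : MeasurableSet {w : V d → ℝ | w (vtx e m) < -K} :=
    measurableSet_lt (measurable_pi_apply _) measurable_const
  exact h2.inter h1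

lemma A_eq (K : ℝ) (R : ℕ) : A d K R = ⋃ e : Dir d, ⋃ m : ℕ, bad K e (R + m) := by
  ext w
  simp only [A, Set.mem_ofPred_eq, Set.mem_iUnion]
  constructor
  · rintro ⟨e, m, hm, h⟩
    obtain ⟨k, rfl⟩ := Nat.exists_eq_add_of_le hm
    exact ⟨e, k, h⟩
  · rintro ⟨e, k, h⟩
    exact ⟨e, R + k, Nat.le_add_right _ _, h⟩

lemma A_meas (hM : S_MEAS) (K : ℝ) (R : ℕ) : MeasurableSet (A d K R) := by
  rw [A_eq]
  exact MeasurableSet.iUnion fun e => MeasurableSet.iUnion fun m => bad_meas hM K e _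

lemma A_anti {K : ℝ} {R R' : ℕ} (h : R ≤ R') : A d K R' ⊆ A d K R := by
  rintro w ⟨e, m, hm, hw⟩
  exact ⟨e, m, h.trans hm, hw⟩

/-- the constant in the tail bound -/
noncomputable def c0 : ℝ≥0∞ := ENNReal.ofReal (Real.exp 4) * ∑' m : ℕ, ENNReal.ofReal (Real.exp (-4)) ^ m

lemma r_lt : ENNReal.ofReal (Real.exp (-4)) < 1 := by
  rw [ENNReal.ofReal_lt_one, Real.exp_lt_one_iff]
  norm_num

lemma c0_lt : c0 < ⊤ := by
  unfold c0
  refine ENNReal.mul_lt_top ENNReal.ofReal_lt_top ?_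
  rw [ENNReal.tsum_geometric]
  exact ENNReal.inv_lt_top.2 (tsub_pos_of_lt r_lt)

lemma law_A (hT : S_TAIL) (ν : Measure ℝ) [IsProbabilityMeasure ν] (K : ℝ)
    (hq : ν (Set.Iio (-K)) ≤ q0 d) (R : ℕ) :
    law ν d (A d K R) ≤ (2 * d : ℕ) * c0 * ENNReal.ofReal (Real.exp (-4)) ^ R := by
  rw [A_eq]
  have h1 : ∀ (e : Dir d) (m : ℕ), law ν d (bad K e (R + m)) ≤
      ENNReal.ofReal (Real.exp 4) * ENNReal.ofReal (Real.exp (-4)) ^ m *
        ENNReal.ofReal (Real.exp (-4)) ^ R := by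
    intro e m
    refine ((hT d ν K hq (vtx e (R + m)) (R + m - 3)).2).trans ?_
    rw [← ENNReal.ofReal_pow (Real.exp_pos _).le, ← ENNReal.ofReal_pow (Real.exp_pos _).le,
      ← ENNReal.ofReal_mul (Real.exp_pos _).le, ← ENNReal.ofReal_mul (by positivity)]
    apply ENNReal.ofReal_le_ofReal
    rw [← Real.exp_nat_mul, ← Real.exp_nat_mul, ← Real.exp_add, ← Real.exp_add]
    apply Real.exp_le_exp.2
    have h2 : (R : ℝ) + m ≤ ((R + m - 3 : ℕ) : ℝ) + 3 := by
      have : R + m ≤ (R + m - 3) + 3 := by omega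
      exact_mod_cast this
    linarith
  calc law ν d (⋃ e : Dir d, ⋃ m : ℕ, bad K e (R + m))
      ≤ ∑ e : Dir d, law ν d (⋃ m : ℕ, bad K e (R + m)) := by
        refine (measure_iUnion_le _).trans ?_
        rw [tsum_fintype]
    _ ≤ ∑ _e : Dir d, ∑' m : ℕ, ENNReal.ofReal (Real.exp 4) * ENNReal.ofReal (Real.exp (-4)) ^ m *
          ENNReal.ofReal (Real.exp (-4)) ^ R := by
        refine Finset.sum_le_sum fun e _ => ?_
        refine (measure_iUnion_le _).trans ?_
        exact ENNReal.tsum_le_tsum fun m => h1 e m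
    _ = (2 * d : ℕ) * c0 * ENNReal.ofReal (Real.exp (-4)) ^ R := by
        rw [Finset.sum_const, ENNReal.tsum_mul_right, ENNReal.tsum_mul_left, card_univ,
          Fintype.card_prod, Fintype.card_fin, Fintype.card_bool, nsmul_eq_mul, mul_comm d 2, c0]
        ring

/-! ### the cost of the shortest escape -/

lemma dir_ne (hd : 2 ≤ d) : (univ : Finset (Dir d)).Nonempty :=
  ⟨(⟨0, by omega⟩, true), mem_univ _⟩

/-- the cost of the cheapest direction -/
noncomputable def y (hd : 2 ≤ d) (R : ℕ) (w : V d → ℝ) : ℝ :=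
  univ.inf' (dir_ne hd) fun e : Dir d => ∑ m ∈ Icc 1 R, max (-(w (vtx e m))) 0

lemma y_nonneg (hd : 2 ≤ d) (R : ℕ) (w : V d → ℝ) : 0 ≤ y hd R w := by
  refine (Finset.le_inf'_iff _ _).2 fun e _ => ?_
  exact Finset.sum_nonneg fun m _ => le_max_right _ _

lemma y_meas (hd : 2 ≤ d) (R : ℕ) : Measurable (y hd R) := by
  refine measurable_of_Ioi fun t => ?_
  have h1 : (y hd R) ⁻¹' Set.Ioi t =
      ⋂ e : Dir d, {w | t < ∑ m ∈ Icc 1 R, max (-(w (vtx e m))) 0} := by
    ext w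
    rw [Set.mem_preimage, Set.mem_Ioi, y, Finset.lt_inf'_iff, Set.mem_iInter]
    constructor
    · exact fun h e => h e (mem_univ e)
    · exact fun h e _ => h e
  rw [h1]
  refine MeasurableSet.iInter fun e => measurableSet_lt measurable_const ?_
  exact Finset.measurable_fun_sum _ fun m _ => ((measurable_pi_apply _).neg).max measurable_const

lemma cover (hd : 2 ≤ d) (K : ℝ) (R : ℕ) (hR : 1 ≤ R) (t : ℝ) (ht : 0 < t) :
    {w | t < y hd R w} ∩ A d K R ⊆ ⋃ f ∈ Fintype.piFinset (fun _ : Dir d => Icc 1 R),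
      (A d K R ∩ {w | ∀ v ∈ univ.image (fun e => vtx e (f e)), w v < -(t / R)}) := by
  rintro w ⟨h1, h2⟩
  have h3 : ∀ e : Dir d, ∃ m ∈ Icc 1 R, t / R < -(w (vtx e m)) := by
    intro e
    have h4 : t < ∑ m ∈ Icc 1 R, max (-(w (vtx e m))) 0 := by
      have h1' : t < y hd R w := h1
      rw [y, Finset.lt_inf'_iff] at h1'
      exact h1' e (mem_univ e)
    by_contra hc
    push Not at hc
    have hR0 : (0 : ℝ) < R := by exact_mod_cast hR
    have h5 : ∑ m ∈ Icc 1 R, max (-(w (vtx e m))) 0 ≤ ∑ _m ∈ Icc 1 R, t / R := by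
      refine Finset.sum_le_sum fun m hm => max_le (hc m hm) (by positivity)
    rw [Finset.sum_const, Nat.card_Icc, nsmul_eq_mul, Nat.add_sub_cancel,
      mul_div_cancel₀ _ hR0.ne'] at h5
    linarith
  choose f hf hf' using h3
  simp only [Set.mem_iUnion]
  refine ⟨f, Fintype.mem_piFinset.2 hf, h2, ?_⟩
  intro v hv
  obtain ⟨e, -, rfl⟩ := Finset.mem_image.1 hv
  have := hf' e
  linarith

lemma lay (hC : S_COND) (hM : S_MEAS) (hd : 2 ≤ d) (ν : Measure ℝ) [IsProbabilityMeasure ν] (K : ℝ)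
    (hq : ν (Set.Iio (-K)) ≠ 0) (R : ℕ) (hR : 1 ≤ R) (t : ℝ) (ht : 0 < t) (htK : K * R ≤ t) :
    law ν d ({w | t < y hd R w} ∩ A d K R) ≤ law ν d (A d K R) *
      ((R : ℝ≥0∞) ^ (2 * d) * (ν (Set.Iio (-(t / R))) ^ (2 * d) / ν (Set.Iio (-K)) ^ (2 * d))) := by
  have hR0 : (0 : ℝ) < R := by exact_mod_cast hR
  have hs : K ≤ t / R := (le_div_iff₀ hR0).2 htK
  refine (measure_mono (cover hd K R hR t ht)).trans ?_
  refine (measure_biUnion_finset_le _ _).trans ?_
  have h1 : ∀ f ∈ Fintype.piFinset (fun _ : Dir d => Icc 1 R),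
      law ν d (A d K R ∩ {w | ∀ v ∈ univ.image (fun e => vtx e (f e)), w v < -(t / R)}) ≤
      law ν d (A d K R) * (ν (Set.Iio (-(t / R))) ^ (2 * d) / ν (Set.Iio (-K)) ^ (2 * d)) := by
    intro f hf
    have hf1 : ∀ e, 1 ≤ f e := fun e => (mem_Icc.1 (Fintype.mem_piFinset.1 hf e)).1
    have h2 := hC d ν K (t / R) hs (univ.image (fun e => vtx e (f e))) (A d K R) (A_meas hM K R)
      (fun w w' h => A_congr h)
    rw [Finset.card_image_of_injective _ (vtx_inj hf1), card_univ, Fintype.card_prod,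
      Fintype.card_fin, Fintype.card_bool, mul_comm d 2] at h2
    rw [← mul_div_assoc]
    refine (ENNReal.le_div_iff_mul_le (Or.inl (pow_ne_zero _ hq))
      (Or.inl (ENNReal.pow_ne_top (measure_ne_top _ _)))).2 h2
  refine (Finset.sum_le_sum h1).trans ?_
  rw [Finset.sum_const, Fintype.card_piFinset]
  simp only [Nat.card_Icc, Nat.add_sub_cancel, Finset.prod_const, card_univ, Fintype.card_prod,
    Fintype.card_fin, Fintype.card_bool]
  rw [nsmul_eq_mul, mul_comm d 2, Nat.cast_pow]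
  apply le_of_eq
  ring

lemma scale (g : ℝ → ℝ≥0∞) (hg : Measurable g) (R : ℕ) (hR : 1 ≤ R) :
    ∫⁻ t in Set.Ioi (0 : ℝ), g (t / R) = R * ∫⁻ t in Set.Ioi (0 : ℝ), g t := by
  have hR0 : (0 : ℝ) < R := by exact_mod_cast hR
  have hinv : ((R : ℝ)⁻¹) ≠ 0 := inv_ne_zero hR0.ne'
  rw [← lintegral_indicator measurableSet_Ioi, ← lintegral_indicator measurableSet_Ioi]
  have h1 : ∀ t : ℝ, (Set.Ioi (0 : ℝ)).indicator (fun t => g (t / R)) t =
      (Set.Ioi (0 : ℝ)).indicator g ((R : ℝ)⁻¹ * t) := by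
    intro t
    have h2 : (R : ℝ)⁻¹ * t = t / R := by rw [div_eq_inv_mul]
    rw [h2]
    by_cases ht : 0 < t
    · rw [Set.indicator_of_mem (show t ∈ Set.Ioi (0 : ℝ) from ht),
        Set.indicator_of_mem (show t / R ∈ Set.Ioi (0 : ℝ) from div_pos ht hR0)]
    · rw [Set.indicator_of_notMem (show t ∉ Set.Ioi (0 : ℝ) from ht), Set.indicator_of_notMem]
      intro h
      have h3 : 0 < t / R := h
      exact ht ((div_pos_iff_of_pos_right hR0).1 h3)
  simp only [h1]
  have h3 : Measurable ((Set.Ioi (0 : ℝ)).indicator g) := hg.indicator measurableSet_Ioi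
  have h4 := lintegral_map (μ := (volume : Measure ℝ)) h3
    (measurable_const_mul ((R : ℝ)⁻¹))
  rw [← h4, Real.map_volume_mul_left hinv, lintegral_smul_measure, inv_inv, abs_of_pos hR0,
    ENNReal.ofReal_natCast, smul_eq_mul]

lemma int_bound (hC : S_COND) (hM : S_MEAS) (hd : 2 ≤ d) (ν : Measure ℝ) [IsProbabilityMeasure ν]
    (K : ℝ) (hq : ν (Set.Iio (-K)) ≠ 0) (R : ℕ) (hR : 1 ≤ R) :
    ∫⁻ w in A d K R, ENNReal.ofReal (y hd R w) ∂law ν d ≤ law ν d (A d K R) *
      (ENNReal.ofReal (K * R) + (R : ℝ≥0∞) ^ (2 * d + 1) *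
        ((∫⁻ t in Set.Ioi (0 : ℝ), ν (Set.Iio (-t)) ^ (2 * d)) / ν (Set.Iio (-K)) ^ (2 * d))) := by
  have hgm : Measurable fun t : ℝ => ν (Set.Iio (-t)) ^ (2 * d) := by
    have h1 : Antitone fun t : ℝ => ν (Set.Iio (-t)) := fun s t hst =>
      measure_mono (Set.Iio_subset_Iio (neg_le_neg hst))
    exact h1.measurable.pow_const _
  rw [lintegral_eq_lintegral_meas_lt _ (Eventually.of_forall fun w => y_nonneg hd R w)
    (y_meas hd R).aemeasurable]
  have h1 : ∀ t ∈ Set.Ioi (0 : ℝ), ((law ν d).restrict (A d K R)) {w | t < y hd R w} ≤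
      law ν d (A d K R) * ((Set.Iio (K * R)).indicator (fun _ => (1 : ℝ≥0∞)) t +
        (R : ℝ≥0∞) ^ (2 * d) * (ν (Set.Iio (-(t / R))) ^ (2 * d) / ν (Set.Iio (-K)) ^ (2 * d))) := by
    intro t ht
    rw [Measure.restrict_apply (measurableSet_lt measurable_const (y_meas hd R))]
    by_cases h2 : t < K * R
    · rw [Set.indicator_of_mem (show t ∈ Set.Iio (K * R) from h2), mul_add, mul_one]
      exact (measure_mono Set.inter_subset_right).trans le_self_add
    · rw [Set.indicator_of_notMem (show t ∉ Set.Iio (K * R) from h2), zero_add]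
      exact lay hC hM hd ν K hq R hR t ht (not_lt.1 h2)
  refine (setLIntegral_mono' measurableSet_Ioi h1).trans ?_
  rw [lintegral_const_mul' _ _ (measure_ne_top _ _)]
  gcongr
  rw [lintegral_add_left (measurable_const.indicator measurableSet_Iio)]
  gcongr
  · rw [lintegral_indicator measurableSet_Iio, Measure.restrict_restrict measurableSet_Iio,
      lintegral_const, one_mul, Measure.restrict_apply MeasurableSet.univ, Set.univ_inter]
    have h3 : Set.Iio (K * R) ∩ Set.Ioi (0 : ℝ) ⊆ Set.Ioo 0 (K * R) := fun t ht => ⟨ht.2, ht.1⟩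
    refine (measure_mono h3).trans ?_
    rw [Real.volume_Ioo, sub_zero]
  · have h4 : ∀ t : ℝ, (R : ℝ≥0∞) ^ (2 * d) * (ν (Set.Iio (-(t / R))) ^ (2 * d) /
        ν (Set.Iio (-K)) ^ (2 * d)) = ((R : ℝ≥0∞) ^ (2 * d) / ν (Set.Iio (-K)) ^ (2 * d)) *
          (fun s : ℝ => ν (Set.Iio (-s)) ^ (2 * d)) (t / R) := by
      intro t
      simp only [div_eq_mul_inv]
      ring
    simp only [h4]
    rw [lintegral_const_mul' _ _ (ENNReal.div_ne_top (ENNReal.pow_ne_top (ENNReal.natCast_ne_top _))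
      (pow_ne_zero _ hq)), scale _ hgm R hR, pow_succ, div_eq_mul_inv, div_eq_mul_inv]
    apply le_of_eq
    ring

theorem low (hE : S_ESC) (hC : S_COND) (hT : S_TAIL) (hM : S_MEAS) : S_LOW1 := by
  intro d hd ν _ hI
  -- choice of K
  obtain ⟨K, hK0, hK⟩ : ∃ K : ℝ, 0 ≤ K ∧ ν (Set.Iio (-K)) ≤ q0 d := by
    have h1 : Tendsto (fun K : ℝ => ν (Set.Iio (-K))) atTop (𝓝 0) := by
      have h2 : Tendsto (fun x : ℝ => ν (Set.Iic x)) atBot (𝓝 0) := by
        have h3 := tendsto_cdf_atBot ν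
        have h4 : (fun x : ℝ => ν (Set.Iic x)) = fun x => ENNReal.ofReal (cdf ν x) := by
          funext x
          rw [cdf_eq_real, Measure.real, ENNReal.ofReal_toReal (measure_ne_top _ _)]
        rw [h4]
        have h5 := ENNReal.tendsto_ofReal h3
        rwa [ENNReal.ofReal_zero] at h5
      have h3 := h2.comp tendsto_neg_atTop_atBot
      exact tendsto_of_tendsto_of_tendsto_of_le_of_le tendsto_const_nhds h3 (fun _ => zero_le)
        (fun K => measure_mono Set.Iio_subset_Iic_self)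
    have h2 : (0 : ℝ≥0∞) < q0 d := by
      unfold q0
      rw [ENNReal.ofReal_pos]
      positivity
    obtain ⟨K, h3, h4⟩ := ((h1.eventually (eventually_le_nhds h2)).and
      (eventually_ge_atTop (0 : ℝ))).exists
    exact ⟨K, h4, h3⟩
  have hbc : ∀ᵐ w ∂law ν d, ∃ N, w ∉ A d K N := by
    have h1 : ∑' R, law ν d (A d K R) ≠ ⊤ := by
      refine ne_top_of_le_ne_top ?_ (ENNReal.tsum_le_tsum fun R => law_A hT ν K hK R)
      rw [ENNReal.tsum_mul_left, ENNReal.tsum_geometric]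
      refine ENNReal.mul_ne_top (ENNReal.mul_ne_top (ENNReal.natCast_ne_top _) c0_lt.ne) ?_
      exact (ENNReal.inv_lt_top.2 (tsub_pos_of_lt r_lt)).ne
    filter_upwards [ae_eventually_notMem h1] with w hw
    exact hw.exists
  -- the escape
  have hesc : ∀ (w : V d → ℝ) (R : ℕ), w ∉ A d K (R + 1) → ∀ n : ℕ, Lo w n (-(y hd R w) - K * n) := by
    intro w R hw n
    obtain ⟨e, -, he⟩ := Finset.exists_mem_eq_inf' (dir_ne hd)
      (fun e : Dir d => ∑ m ∈ Icc 1 R, max (-(w (vtx e m))) 0)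
    have h1 := esc hE hd w K R hK0 e (fun m hm hb => hw ⟨e, m, hm, hb⟩) n
    have h2 : y hd R w = ∑ m ∈ Icc 1 R, max (-(w (vtx e m))) 0 := he
    rw [h2]
    exact h1
  have hy0 : ∀ w : V d → ℝ, y hd 0 w = 0 := by
    intro w
    obtain ⟨e, -, he⟩ := Finset.exists_mem_eq_inf' (dir_ne hd)
      (fun e : Dir d => ∑ m ∈ Icc 1 0, max (-(w (vtx e m))) 0)
    have h2 : y hd 0 w = ∑ m ∈ Icc 1 0, max (-(w (vtx e m))) 0 := he
    rw [h2]
    simp
  let Z : (V d → ℝ) → ℝ≥0∞ := fun w =>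
    ∑' R : ℕ, (A d K (R + 1)).indicator (fun w => ENNReal.ofReal (y hd (R + 1) w)) w
  have hZm : Measurable Z := Measurable.tsum fun R =>
    ((y_meas hd (R + 1)).ennreal_ofReal).indicator (A_meas hM K (R + 1))
  have hZint : ∫⁻ w, Z w ∂law ν d < ⊤ := by
    have e1 : ∫⁻ w, Z w ∂law ν d = ∑' R : ℕ, ∫⁻ w in A d K (R + 1),
        ENNReal.ofReal (y hd (R + 1) w) ∂law ν d := by
      rw [lintegral_tsum fun R => (((y_meas hd (R + 1)).ennreal_ofReal).indicator
        (A_meas hM K (R + 1))).aemeasurable]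
      refine tsum_congr fun R => ?_
      rw [lintegral_indicator (A_meas hM K (R + 1))]
    rw [e1]
    by_cases hq : ν (Set.Iio (-K)) = 0
    · have h2 : ∀ R, law ν d (A d K R) = 0 := by
        intro R
        rw [A_eq]
        refine measure_iUnion_null fun e => measure_iUnion_null fun m => ?_
        refine measure_mono_null (t := {w | w (vtx e (R + m)) ∈ Set.Iio (-K)}) (fun w hw => hw.1) ?_
        rw [law_eval ν _ measurableSet_Iio, hq]
      have h3 : ∀ R : ℕ, ∫⁻ w in A d K (R + 1), ENNReal.ofReal (y hd (R + 1) w) ∂law ν d = 0 := by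
        intro R
        exact setLIntegral_measure_zero _ _ (h2 _)
      simp only [h3, tsum_zero]
      exact ENNReal.zero_lt_top
    · set c : ℝ≥0∞ := (∫⁻ t in Set.Ioi (0 : ℝ), ν (Set.Iio (-t)) ^ (2 * d)) /
        ν (Set.Iio (-K)) ^ (2 * d) with hc
      have hcT : c ≠ ⊤ := ENNReal.div_ne_top hI.ne (pow_ne_zero _ hq)
      have h4 : ∀ R : ℕ, ∫⁻ w in A d K (R + 1), ENNReal.ofReal (y hd (R + 1) w) ∂law ν d ≤
          ((2 * d : ℕ) * c0 * (ENNReal.ofReal K + c)) *
            (((R + 1 : ℕ) : ℝ≥0∞) ^ (2 * d + 1) * ENNReal.ofReal (Real.exp (-4)) ^ (R + 1)) := by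
        intro R
        refine (int_bound hC hM hd ν K hq (R + 1) (by omega)).trans ?_
        have h5 : ENNReal.ofReal (K * ((R + 1 : ℕ) : ℝ)) ≤
            ((R + 1 : ℕ) : ℝ≥0∞) ^ (2 * d + 1) * ENNReal.ofReal K := by
          rw [ENNReal.ofReal_mul hK0, ENNReal.ofReal_natCast, mul_comm]
          gcongr
          refine le_self_pow₀ ?_ (by omega)
          exact_mod_cast (show 1 ≤ R + 1 by omega)
        calc law ν d (A d K (R + 1)) * (ENNReal.ofReal (K * ((R + 1 : ℕ) : ℝ)) +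
              ((R + 1 : ℕ) : ℝ≥0∞) ^ (2 * d + 1) * c)
            ≤ ((2 * d : ℕ) * c0 * ENNReal.ofReal (Real.exp (-4)) ^ (R + 1)) *
              (((R + 1 : ℕ) : ℝ≥0∞) ^ (2 * d + 1) * ENNReal.ofReal K +
                ((R + 1 : ℕ) : ℝ≥0∞) ^ (2 * d + 1) * c) := by
              gcongr
              exact law_A hT ν K hK (R + 1)
          _ = _ := by ring
      refine lt_of_le_of_lt (ENNReal.tsum_le_tsum h4) ?_
      rw [ENNReal.tsum_mul_left]
      refine ENNReal.mul_lt_top (ENNReal.mul_lt_top (ENNReal.mul_lt_top (ENNReal.natCast_lt_top _)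
        c0_lt) (ENNReal.add_lt_top.2 ⟨ENNReal.ofReal_lt_top, hcT.lt_top⟩)) ?_
      have h6 : Summable fun n : ℕ => (n : ℝ) ^ (2 * d + 1) * Real.exp (-4) ^ n := by
        refine summable_pow_mul_geometric_of_norm_lt_one _ ?_
        rw [Real.norm_eq_abs, abs_of_pos (Real.exp_pos _), Real.exp_lt_one_iff]
        norm_num
      have h7 := (summable_nat_add_iff 1).2 h6
      have h8 : ∀ R : ℕ, ((R + 1 : ℕ) : ℝ≥0∞) ^ (2 * d + 1) *
          ENNReal.ofReal (Real.exp (-4)) ^ (R + 1) =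
          ENNReal.ofReal (((R + 1 : ℕ) : ℝ) ^ (2 * d + 1) * Real.exp (-4) ^ (R + 1)) := by
        intro R
        rw [ENNReal.ofReal_mul (by positivity), ENNReal.ofReal_pow (by positivity),
          ENNReal.ofReal_natCast, ENNReal.ofReal_pow (Real.exp_pos _).le]
      simp only [h8]
      exact h7.tsum_ofReal_lt_top
  refine ⟨K, Z, hK0, hZm, hZint, ?_⟩
  filter_upwards [hbc, ae_lt_top hZm hZint.ne] with w hw hwZ n
  classical
  have hex : ∃ N, w ∉ A d K (N + 1) := by
    obtain ⟨N, hN⟩ := hw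
    exact ⟨N, fun h => hN (A_anti (Nat.le_succ N) h)⟩
  obtain ⟨R, hR, hmin⟩ : ∃ R, w ∉ A d K (R + 1) ∧ ∀ R', R' < R → w ∈ A d K (R' + 1) :=
    ⟨Nat.find hex, Nat.find_spec hex, fun R' h => by
      have := Nat.find_min hex h
      exact not_not.1 this⟩
  refine (hesc w R hR n).mono ?_
  have h1 : y hd R w ≤ (Z w).toReal := by
    rcases Nat.eq_zero_or_pos R with rfl | hpos
    · rw [hy0]
      exact ENNReal.toReal_nonneg
    · obtain ⟨R', rfl⟩ := Nat.exists_eq_add_of_le' hpos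
      rw [← ENNReal.ofReal_le_iff_le_toReal hwZ.ne]
      have h2 := ENNReal.le_tsum (f := fun R : ℕ =>
        (A d K (R + 1)).indicator (fun w => ENNReal.ofReal (y hd (R + 1) w)) w) R'
      simp only [Set.indicator_of_mem (hmin R' (Nat.lt_succ_self _))] at h2
      exact h2
  linarith

end Pool.Agent.W462.GQ
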